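import Mathlib

namespace Pool.Agent.Results.MP_12b847_ag.Unbounded

open MvPolynomial Finset

/-- multi-affine of degree at most `d` -/
def MultiAffine {n : ℕ} (d : ℕ) (P : MvPolynomial (Fin n) ℝ) : Prop :=
  (∀ i, degreeOf i P ≤ 1) ∧ P.totalDegree ≤ d

/-- the common real zero set -/
def Z {n : ℕ} (P Q : MvPolynomial (Fin n) ℝ) : Set (Fin n → ℝ) :=
  {x | eval x P = 0 ∧ eval x Q = 0}

lemma es_deg (n k : ℕ) : MultiAffine k (esymm (Fin n) ℝ k) := by
  classical
  unfold esymm
  constructor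
  · intro i
    refine (degreeOf_sum_le _ _ _).trans (Finset.sup_le fun t _ => ?_)
    refine (degreeOf_prod_le _ _ _).trans ?_
    simp only [degreeOf_X]
    rw [Finset.sum_ite_eq]
    split_ifs <;> simp
  · refine (totalDegree_finsetSum _ _).trans (Finset.sup_le fun t ht => ?_)
    refine (totalDegree_finsetProd _ _).trans ?_
    simp [totalDegree_X, (Finset.mem_powersetCard.mp ht).2]

lemma newton {n : ℕ} (x : Fin n → ℝ) (h : ∑ i, x i = 0) :
    24 * eval x (esymm (Fin n) ℝ 4) = 3 * (∑ i, x i ^ 2) ^ 2 - 6 * ∑ i, x i ^ 4 := by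
  have h1 : eval x (esymm (Fin n) ℝ 1) = 0 := by simp [esymm_one, h]
  have h2 := congrArg (eval x) (mul_esymm_eq_sum (Fin n) ℝ 2)
  have h4 := congrArg (eval x) (mul_esymm_eq_sum (Fin n) ℝ 4)
  have a2 : (antidiagonal 2).filter (fun a : ℕ × ℕ => a.1 < 2) = {(0, 2), (1, 1)} := by decide
  have a4 : (antidiagonal 4).filter (fun a : ℕ × ℕ => a.1 < 4)
      = {(0, 4), (1, 3), (2, 2), (3, 1)} := by decide
  rw [a2, Finset.sum_pair (by decide)] at h2
  rw [a4, Finset.sum_insert (by decide), Finset.sum_insert (by decide),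
    Finset.sum_pair (by decide)] at h4
  simp only [map_mul, map_add, map_pow, map_neg, map_one, map_natCast, esymm_zero, h1, psum,
    map_sum, eval_X, pow_one, h] at h2 h4
  push_cast at h2 h4
  have e2 : eval x (esymm (Fin n) ℝ 2) = -(∑ i, x i ^ 2) / 2 := by linarith
  rw [e2] at h4
  linarith

theorem result : ∀ n : ℕ, 4 ≤ n → ∃ P Q : MvPolynomial (Fin n) ℝ,
    MultiAffine 4 P ∧ MultiAffine 4 Q ∧ (n : ℕ∞) ≤ ENat.card (ConnectedComponents (Z P Q)) := by
  intro n hn
  have hn' : (4 : ℝ) ≤ n := by exact_mod_cast hn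
  let pt : Fin n → Fin n → ℝ := fun i j => (if j = i then (n : ℝ) else 0) - 1
  have s1 : ∀ i, ∑ j, pt i j = 0 := by
    intro i; simp [pt, Finset.sum_sub_distrib]
  have sk : ∀ (k : ℕ) i, Even k → ∑ j, pt i j ^ k = (n - 1) ^ k + (n - 1) := by
    intro k i hk
    rw [← Finset.add_sum_erase _ _ (Finset.mem_univ i)]
    have : ∑ j ∈ Finset.univ.erase i, pt i j ^ k = ∑ _j ∈ Finset.univ.erase i, (1 : ℝ) := by
      apply Finset.sum_congr rfl
      intro j hj
      simp [pt, Finset.ne_of_mem_erase hj, hk.neg_one_pow]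
    rw [this]
    simp [pt, Nat.cast_sub (show 1 ≤ n by omega)]
  set c : ℝ := (3 * (((n : ℝ) - 1) ^ 2 + (n - 1)) ^ 2 - 6 * ((n - 1) ^ 4 + (n - 1))) / 24 with hc
  have hc0 : c < 0 := by
    rw [hc]
    obtain ⟨m, hm⟩ : ∃ m : ℝ, (n : ℝ) - 1 = m + 3 := ⟨n - 4, by ring⟩
    have : 0 ≤ m := by linarith
    rw [hm]
    have : 0 < (m + 3) * (m ^ 3 + 7 * m ^ 2 + 14 * m + 8) := by positivity
    nlinarith
  refine ⟨esymm _ ℝ 1, esymm _ ℝ 4 - C c, ⟨(es_deg n 1).1, (es_deg n 1).2.trans (by norm_num)⟩,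
    ⟨fun i => ?_, ?_⟩, ?_⟩
  · rw [sub_eq_add_neg, ← map_neg]
    refine (degreeOf_add_le _ _ _).trans (max_le ((es_deg n 4).1 i) ?_)
    rw [degreeOf_C]; norm_num
  · rw [sub_eq_add_neg, ← map_neg]
    refine (totalDegree_add _ _).trans (max_le (es_deg n 4).2 ?_)
    rw [totalDegree_C]; norm_num
  · set S := Z (esymm (Fin n) ℝ 1) (esymm (Fin n) ℝ 4 - C c) with hS
    have hmem : ∀ x, x ∈ S ↔ ∑ i, x i = 0 ∧ eval x (esymm (Fin n) ℝ 4) = c := by
      intro x; simp [hS, Z, esymm_one, sub_eq_zero]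
    have hp : ∀ i, pt i ∈ S := by
      intro i
      rw [hmem]
      refine ⟨s1 i, ?_⟩
      have := newton (pt i) (s1 i)
      rw [sk 2 i (by decide), sk 4 i (by decide)] at this
      rw [hc]; linarith
    let U : Fin n → Set S := fun i => {x | ∑ j, x.1 j ^ 2 < 2 * x.1 i ^ 2}
    have hco : ∀ i, Continuous fun x : S => x.1 i := fun i =>
      (continuous_apply i).comp continuous_subtype_val
    have hUo : ∀ i, IsOpen (U i) := fun i => isOpen_lt
      (continuous_finsetSum _ fun j _ => (hco j).pow 2) (continuous_const.mul ((hco i).pow 2))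
    have hdis : ∀ i j (x : S), x ∈ U i → x ∈ U j → i = j := by
      intro i j x hi hj
      by_contra hij
      have : x.1 i ^ 2 + x.1 j ^ 2 ≤ ∑ k, x.1 k ^ 2 := by
        rw [← Finset.sum_pair (f := fun k => x.1 k ^ 2) hij]
        exact Finset.sum_le_sum_of_subset_of_nonneg (Finset.subset_univ _)
          fun k _ _ => sq_nonneg _
      simp only [U, Set.mem_ofPred_eq] at hi hj
      linarith
    have hcov : ∀ x : S, ∃ i, x ∈ U i := by
      intro x
      by_contra h
      push Not at h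
      simp only [U, Set.mem_ofPred_eq, not_lt] at h
      obtain ⟨h1, h2⟩ := (hmem x.1).mp x.2
      have h3 := newton x.1 h1
      have h4 : 2 * ∑ i, x.1 i ^ 4 ≤ (∑ i, x.1 i ^ 2) ^ 2 := by
        rw [Finset.mul_sum, pow_two (∑ i, x.1 i ^ 2), Finset.mul_sum]
        apply Finset.sum_le_sum
        intro i _
        nlinarith [mul_le_mul_of_nonneg_right (h i) (sq_nonneg (x.1 i))]
      linarith
    have hcl : ∀ i, IsClopen (U i) := by
      intro i
      refine ⟨⟨?_⟩, hUo i⟩
      have : (U i)ᶜ = ⋃ j ∈ {j | j ≠ i}, U j := by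
        ext x
        simp only [Set.mem_compl_iff, Set.mem_iUnion, Set.mem_ofPred_eq, exists_prop]
        constructor
        · intro h
          obtain ⟨j, hj⟩ := hcov x
          exact ⟨j, fun e => h (e ▸ hj), hj⟩
        · rintro ⟨j, hj, h⟩ hi
          exact hj (hdis j i x h hi)
      rw [this]
      exact isOpen_biUnion fun j _ => hUo j
    have hin : ∀ i, (⟨pt i, hp i⟩ : S) ∈ U i := by
      intro i
      simp only [U, Set.mem_ofPred_eq]
      rw [sk 2 i (by decide)]
      simp only [pt, if_true]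
      nlinarith
    have inj : Function.Injective fun i => ConnectedComponents.mk (⟨pt i, hp i⟩ : S) := by
      intro i j hij
      have h1 := ConnectedComponents.coe_eq_coe'.mp hij
      exact hdis i j _ (hin i) ((hcl j).connectedComponent_subset (hin j) h1)
    simpa using ENat.card_le_card_of_injective inj

end Pool.Agent.Results.MP_12b847_ag.Unbounded
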